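import Pool.Agent.MP_f4aa65_ag.Final

/-!
There is a pi_1-like functor that admits, for no automorphism of the field of complex numbers, a
natural transformation from the topological fundamental groupoid functor to its twist that is the
identity on complex points.
-/

namespace Pool.Agent.Results.MP_f4aa65_ag.ExoticPiOne

open Pool.Agent.MP_f4aa65_ag

theorem result : ∃ π : PtsFunctor, IsPiOneLike π ∧
    ∀ σ : ℂ ≃+* ℂ, ¬ HasTrans topPiOne (π.twist σ) :=
  exists_exotic

end Pool.Agent.Results.MP_f4aa65_ag.ExoticPiOne
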